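import Mathlib

/-!
# Divisors of finite groups as Schutzenberger groups of free idempotent generated semigroups

For a semigroup `S` we form `IG S`, the free idempotent generated semigroup over the biordered set
of idempotents of `S`.  For every finite group `G` and `L ⊴ K ≤ G` we produce a finite semigroup
`S` and an element of `IG S` with a two-term fingerprint, whose first regular class has maximal
subgroup `G` and whose Schutzenberger group is `K ⧸ L`.
-/

namespace Pool.Agent.Results.MP_316c67_al.SchutzenbergerDivisors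

universe u v w

section Definitions

/-- The idempotents of a semigroup. -/
def Idem (S : Type u) [Semigroup S] : Type u := {e : S // e * e = e}

/-- The pair `(e, f)` of idempotents is basic: `{e, f} ∩ {ef, fe}` is nonempty. -/
def Basic {S : Type u} [Semigroup S] (e f : Idem S) : Prop :=
  (({e.1, f.1} : Set S) ∩ {e.1 * f.1, f.1 * e.1}).Nonempty

/-- The defining relations `e · f = ef`, for `(e, f)` a basic pair, of the free idempotent
generated semigroup (on words in the alphabet of idempotents). -/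
inductive IGRel (S : Type u) [Semigroup S] :
    FreeSemigroup (Idem S) → FreeSemigroup (Idem S) → Prop
  | basic (e f g : Idem S) (h : Basic e f) (hg : g.1 = e.1 * f.1) :
      IGRel S (FreeSemigroup.of e * FreeSemigroup.of f) (FreeSemigroup.of g)

/-- The free idempotent generated semigroup over the biordered set of idempotents of `S`. -/
def IG (S : Type u) [Semigroup S] : Type u := (conGen (IGRel S)).Quotient

instance (S : Type u) [Semigroup S] : Semigroup (IG S) :=
  inferInstanceAs (Semigroup (conGen (IGRel S)).Quotient)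

/-- The value of a word in the free idempotent generated semigroup. -/
def val {S : Type u} [Semigroup S] (x : FreeSemigroup (Idem S)) : IG S :=
  (conGen (IGRel S)).toQuotient x

/-- Regular elements of a semigroup. -/
def Regular {T : Type u} [Semigroup T] (a : T) : Prop := ∃ b, a * b * a = a

/-- Green's relation `R`: `a T¹ = b T¹`. -/
def GreenR {T : Type u} [Semigroup T] (a b : T) : Prop :=
  (∃ s : WithOne T, (a : WithOne T) = b * s) ∧ (∃ s : WithOne T, (b : WithOne T) = a * s)

/-- Green's relation `L`: `T¹ a = T¹ b`. -/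
def GreenL {T : Type u} [Semigroup T] (a b : T) : Prop :=
  (∃ s : WithOne T, (a : WithOne T) = s * b) ∧ (∃ s : WithOne T, (b : WithOne T) = s * a)

/-- Green's relation `H`, the intersection of `R` and `L`. -/
def GreenH {T : Type u} [Semigroup T] (a b : T) : Prop := GreenR a b ∧ GreenL a b

/-- Green's relation `D`, the composition of `R` and `L`. -/
def GreenD {T : Type u} [Semigroup T] (a b : T) : Prop := ∃ c, GreenR a c ∧ GreenL c b

/-- The `H`-class of `x`. -/
def HClass {T : Type u} [Semigroup T] (x : T) : Set T := {y | GreenH y x}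

/-- The maximal subgroup of the `D`-class of `x`, that is the `H`-class of one of the idempotents
of that `D`-class, is isomorphic to `G`. -/
def MaxSubgroupIso (G : Type v) [Group G] {T : Type u} [Semigroup T] (x : T) : Prop :=
  ∃ e : T, e * e = e ∧ GreenD e x ∧ ∃ ψ : G → T, Function.Injective ψ ∧
    (∀ a b, ψ (a * b) = ψ a * ψ b) ∧ Set.range ψ = HClass e

/-- The Schutzenberger group of an `H`-class `H`: all maps `H → H`, `h ↦ h s`, with `s ∈ T¹` and
`H s ⊆ H`, under composition. -/
def schutz {T : Type u} [Semigroup T] (H : Set T) : Submonoid (Function.End H) where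
  carrier := {f | ∃ s : WithOne T, ∀ h : H, ((f h : T) : WithOne T) = ((h : T) : WithOne T) * s}
  mul_mem' := by
    rintro f g ⟨s, hs⟩ ⟨t, ht⟩
    refine ⟨t * s, fun h => ?_⟩
    change ((f (g h) : T) : WithOne T) = _
    rw [hs, ht, mul_assoc]
  one_mem' := ⟨1, fun h => (mul_one _).symm⟩

/-- The product of the nonempty list `a :: l`. -/
def prodList {T : Type u} [Semigroup T] (a : T) (l : List T) : T := l.foldl (· * ·) a

/-- The list of words `w :: ws` is a minimal r-factorisation of a word with value `x`: each factor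
has regular value, and a product of consecutive factors has regular value only if it consists of
one factor. -/
structure IsMinimalRFact {S : Type u} [Semigroup S] (x : IG S) (w : FreeSemigroup (Idem S))
    (ws : List (FreeSemigroup (Idem S))) : Prop where
  val_eq : val (prodList w ws) = x
  regular : ∀ v ∈ w :: ws, Regular (val v)
  minimal : ∀ (pre suf l : List (FreeSemigroup (Idem S))) (v : FreeSemigroup (Idem S)),
    w :: ws = pre ++ (v :: l) ++ suf → Regular (val (prodList v l)) → l = []

end Definitions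

/-! ### Basic facts on `IG S` -/

section Basics

variable {S : Type u} [Semigroup S]

/-- The generator attached to an idempotent. -/
def bar (e : S) (he : e * e = e) : IG S := val (FreeSemigroup.of ⟨e, he⟩)

theorem val_mul (x y : FreeSemigroup (Idem S)) : val (x * y) = val x * val y := rfl

theorem val_surj (x : IG S) : ∃ y, val y = x := by
  induction x using Con.induction_on with
  | H y => exact ⟨y, rfl⟩

theorem bar_mul {e f g : S} (he : e * e = e) (hf : f * f = f) (hg : g * g = g)
    (hb : e * f = e ∨ e * f = f ∨ f * e = e ∨ f * e = f) (h : e * f = g) :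
    bar e he * bar f hf = bar g hg := by
  have hb' : Basic (⟨e, he⟩ : Idem S) ⟨f, hf⟩ := by
    unfold Basic
    rcases hb with h1 | h1 | h1 | h1
    · exact ⟨e, by simp, by simp [h1]⟩
    · exact ⟨f, by simp, by simp [h1]⟩
    · exact ⟨e, by simp, by simp [h1]⟩
    · exact ⟨f, by simp, by simp [h1]⟩
  have := (conGen (IGRel S)).eq.2 (ConGen.Rel.of _ _ (IGRel.basic ⟨e, he⟩ ⟨f, hf⟩ ⟨g, hg⟩ hb' h.symm))
  exact this

theorem bar_congr {e f : S} (h : e = f) (he : e * e = e) (hf : f * f = f) :
    bar e he = bar f hf := by subst h; rfl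

/-- The universal property: a map of the idempotents to a semigroup that respects the basic
products extends to `IG S`. -/
def lift {N : Type v} [Semigroup N] (f : Idem S → N)
    (hf : ∀ a b g : Idem S, Basic a b → g.1 = a.1 * b.1 → f a * f b = f g) : IG S → N := by
  have key : ∀ a b : FreeSemigroup (Idem S), conGen (IGRel S) a b →
      FreeSemigroup.lift f a = FreeSemigroup.lift f b := by
    intro a b h
    induction h with
    | of x y hxy =>
      cases hxy with
      | basic a b g h hg =>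
        simp only [map_mul, FreeSemigroup.lift_of]
        exact hf a b g h hg
    | refl x => rfl
    | symm _ ih => exact ih.symm
    | trans _ _ ih1 ih2 => exact ih1.trans ih2
    | mul _ _ ih1 ih2 => simp only [map_mul, ih1, ih2]
  exact fun x => Con.liftOn x (FreeSemigroup.lift f) key

theorem lift_mul {N : Type v} [Semigroup N] (f : Idem S → N)
    (hf : ∀ a b g : Idem S, Basic a b → g.1 = a.1 * b.1 → f a * f b = f g) (x y : IG S) :
    lift f hf (x * y) = lift f hf x * lift f hf y := by
  obtain ⟨x, rfl⟩ := val_surj x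
  obtain ⟨y, rfl⟩ := val_surj y
  exact map_mul (FreeSemigroup.lift f) x y

theorem lift_bar {N : Type v} [Semigroup N] (f : Idem S → N)
    (hf : ∀ a b g : Idem S, Basic a b → g.1 = a.1 * b.1 → f a * f b = f g) (e : S)
    (he : e * e = e) : lift f hf (bar e he) = f ⟨e, he⟩ := rfl

end Basics

/-! ### Row-monomial matrices -/

/-- Row-monomial `3 × 3` matrices over a group `P`: the `k`-th row has the entry `lab k` in
column `tgt k`, and zeros elsewhere. -/
@[ext] structure M3 (P : Type u) where
  lab : Fin 3 → P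
  tgt : Fin 3 → Fin 3

namespace M3

variable {P : Type u} [Group P]

instance : Mul (M3 P) := ⟨fun s t => ⟨fun k => s.lab k * t.lab (s.tgt k), fun k => t.tgt (s.tgt k)⟩⟩

@[simp] theorem mul_lab (s t : M3 P) (k : Fin 3) : (s * t).lab k = s.lab k * t.lab (s.tgt k) := rfl
@[simp] theorem mul_tgt (s t : M3 P) (k : Fin 3) : (s * t).tgt k = t.tgt (s.tgt k) := rfl

instance : Semigroup (M3 P) where
  mul_assoc s t r := by
    ext k <;> simp [mul_assoc]

/-- Apply a homomorphism to all entries. -/
def map {Q : Type v} [Group Q] (φ : P →* Q) (s : M3 P) : M3 Q := ⟨fun k => φ (s.lab k), s.tgt⟩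

@[simp] theorem map_lab {Q : Type v} [Group Q] (φ : P →* Q) (s : M3 P) (k : Fin 3) :
    (s.map φ).lab k = φ (s.lab k) := rfl
@[simp] theorem map_tgt {Q : Type v} [Group Q] (φ : P →* Q) (s : M3 P) (k : Fin 3) :
    (s.map φ).tgt k = s.tgt k := rfl

theorem map_mul {Q : Type v} [Group Q] (φ : P →* Q) (s t : M3 P) :
    (s * t).map φ = s.map φ * t.map φ := by
  ext k <;> simp

/-- The matrix with column `k` equal to `u`, other columns `0`. -/
def r1 (u : Fin 3 → P) (k : Fin 3) : M3 P := ⟨u, fun _ => k⟩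

omit [Group P] in
@[simp] theorem r1_lab (u : Fin 3 → P) (k i : Fin 3) : (r1 u k).lab i = u i := rfl
omit [Group P] in
@[simp] theorem r1_tgt (u : Fin 3 → P) (k i : Fin 3) : (r1 u k).tgt i = k := rfl

theorem idem_lab {t : M3 P} (ht : t * t = t) (k : Fin 3) : t.lab (t.tgt k) = 1 := by
  have := congrArg (fun s : M3 P => s.lab k) ht
  simpa using this

theorem idem_tgt {t : M3 P} (ht : t * t = t) (k : Fin 3) : t.tgt (t.tgt k) = t.tgt k :=
  congrArg (fun s : M3 P => s.tgt k) ht

/-- The idempotent of rank one in the `R`-class of `u` and `L`-class of `k`. -/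
def e (u : Fin 3 → P) (k : Fin 3) : M3 P := r1 (fun i => u i * (u k)⁻¹) k

@[simp] theorem e_lab (u : Fin 3 → P) (k i : Fin 3) : (e u k).lab i = u i * (u k)⁻¹ := rfl
@[simp] theorem e_tgt (u : Fin 3 → P) (k i : Fin 3) : (e u k).tgt i = k := rfl

theorem e_idem (u : Fin 3 → P) (k : Fin 3) : e u k * e u k = e u k := by
  ext i <;> simp

end M3

/-! ### The rank one part -/

theorem exists_third (k l : Fin 3) : ∃ m : Fin 3, m ≠ k ∧ m ≠ l := by
  decide +revert

theorem succ_ne (k : Fin 3) : k + 1 ≠ k := by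
  decide +revert

section RankOne

variable {S : Type u} [Semigroup S] {P : Type v} [Group P] {j : M3 P → S}
  (hj : ∀ s t, j (s * t) = j s * j t)

include hj

theorem idem_j {t : M3 P} (ht : t * t = t) : j t * j t = j t := by rw [← hj, ht]

/-- The generators of `IG S` attached to the idempotents of rank one. -/
def eb (u : Fin 3 → P) (k : Fin 3) : IG S := bar (j (M3.e u k)) (idem_j hj (M3.e_idem u k))

theorem eb_congr {u v : Fin 3 → P} {k : Fin 3} (h : ∀ i, u i * (u k)⁻¹ = v i * (v k)⁻¹) :
    eb hj u k = eb hj v k := by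
  unfold eb
  apply bar_congr
  congr 1
  ext i
  · simpa using h i
  · simp

theorem eb_L (u v : Fin 3 → P) (k : Fin 3) : eb hj u k * eb hj v k = eb hj u k := by
  have h : M3.e u k * M3.e v k = M3.e u k := by ext i <;> simp
  exact bar_mul _ _ _ (Or.inl (by rw [← hj, h])) (by rw [← hj, h])

theorem eb_R (u : Fin 3 → P) (k l : Fin 3) : eb hj u k * eb hj u l = eb hj u l := by
  have h : M3.e u k * M3.e u l = M3.e u l := by ext i <;> simp
  exact bar_mul _ _ _ (Or.inr (Or.inl (by rw [← hj, h]))) (by rw [← hj, h])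

/-- `τ` is an idempotent acting on the image of `j` on both sides as the matrix `t`. -/
structure Acts (j : M3 P → S) (τ : S) (t : M3 P) : Prop where
  idem : τ * τ = τ
  idem' : t * t = t
  right : ∀ m, j m * τ = j (m * t)
  left : ∀ m, τ * j m = j (t * m)

theorem acts_self {t : M3 P} (ht : t * t = t) : Acts j (j t) t :=
  ⟨idem_j hj ht, ht, fun _ => (hj _ _).symm, fun _ => (hj _ _).symm⟩

omit hj in
theorem absorb_left {hj : ∀ s t, j (s * t) = j s * j t} {τ : S} {t : M3 P} (h : Acts j τ t)
    {w : Fin 3 → P} {k : Fin 3}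
    (hw : ∀ i, t.lab i * w (t.tgt i) = w i) : bar τ h.idem * eb hj w k = eb hj w k := by
  have h1 : t * M3.e w k = M3.e w k := by
    ext i
    · simp only [M3.mul_lab, M3.e_lab]
      rw [← mul_assoc, hw i]
    · simp
  exact bar_mul _ _ _ (Or.inr (Or.inl (by rw [h.left, h1]))) (by rw [h.left, h1])

/-- If `t` fixes `e r k` on the left, then `e r k * t = e r' k'` lifts to `IG S`. -/
theorem mul_act {τ : S} {t : M3 P} (h : Acts j τ t) {r : Fin 3 → P} {k : Fin 3}
    {r' : Fin 3 → P} {k' : Fin 3}
    (hr : ∀ i, t.lab i * r (t.tgt i) = r i) (h' : M3.e r k * t = M3.e r' k') :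
    eb hj r k * bar τ h.idem = eb hj r' k' := by
  have h1 : t * M3.e r k = M3.e r k := by
    ext i
    · simp only [M3.mul_lab, M3.e_lab]
      rw [← mul_assoc, hr i]
    · simp
  exact bar_mul _ _ _ (Or.inr (Or.inr (Or.inl (by rw [h.left, h1])))) (by rw [h.right, h'])

/-- If `e r k` is fixed by `t` on the right, then `t * e r k` lifts to `IG S`. -/
theorem act_mul {τ : S} {t : M3 P} (h : Acts j τ t) {r : Fin 3 → P} {k : Fin 3}
    {r' : Fin 3 → P} {k' : Fin 3}
    (hr : M3.e r k * t = M3.e r k) (h' : t * M3.e r k = M3.e r' k') :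
    bar τ h.idem * eb hj r k = eb hj r' k' := by
  exact bar_mul _ _ _ (Or.inr (Or.inr (Or.inr (by rw [h.right, hr])))) (by rw [h.left, h'])

theorem mul_act_fix {τ : S} {t : M3 P} (h : Acts j τ t) {r : Fin 3 → P} {k : Fin 3}
    (hr : M3.e r k * t = M3.e r k) : eb hj r k * bar τ h.idem = eb hj r k :=
  bar_mul _ _ _ (Or.inl (by rw [h.right, hr])) (by rw [h.right, hr])

/-- Independence of the second factor. -/
theorem lemA {l k : Fin 3} (hlk : l ≠ k) (u w w' : Fin 3 → P)
    (hw : w l * (w k)⁻¹ = w' l * (w' k)⁻¹) :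
    eb hj u l * eb hj w k = eb hj u l * eb hj w' k := by
  let t : M3 P := ⟨fun i => if i = l then 1 else w i * (w k)⁻¹, fun i => if i = l then l else k⟩
  have ht : t * t = t := by
    ext i
    · by_cases hi : i = l
      · simp [t, hi]
      · simp [t, hi, Ne.symm hlk]
    · by_cases hi : i = l
      · simp [t, hi]
      · simp [t, hi, Ne.symm hlk]
  have hA := acts_self hj ht
  have h1 : eb hj u l * bar (j t) hA.idem = eb hj u l := by
    apply mul_act_fix hj hA
    ext i
    · simp [t]
    · simp [t]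
  have h2 : bar (j t) hA.idem * eb hj w' k = eb hj w k := by
    apply act_mul hj hA
    · ext i
      · simp [t, Ne.symm hlk]
      · simp [t, Ne.symm hlk]
    · ext i
      · by_cases hi : i = l
        · subst hi
          simp [t, hw]
        · simp [t, hi]
      · simp [t]
  rw [← h2, ← mul_assoc, h1]

/-- Independence of the first factor. -/
theorem lemB {l m k : Fin 3} (hlm : l ≠ m) (u w : Fin 3 → P)
    (hwl : w l = u l) (hwm : w m = u m) :
    eb hj u l * eb hj w k = eb hj u m * eb hj w k := by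
  let t : M3 P := ⟨fun i => if i = m then u m * (u l)⁻¹ else 1, fun i => if i = m then l else i⟩
  have ht : t * t = t := by
    ext i
    · by_cases hi : i = m
      · simp [t, hi, hlm]
      · simp [t, hi]
    · by_cases hi : i = m
      · simp [t, hi, hlm]
      · simp [t, hi]
  have hA := acts_self hj ht
  have h1 : eb hj u m * bar (j t) hA.idem = eb hj u l := by
    apply mul_act hj hA
    · intro i
      by_cases hi : i = m
      · subst hi
        simp [t]
      · simp [t, hi]
    · ext i
      · simp [t, mul_assoc]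
      · simp [t]
  have h2 : bar (j t) hA.idem * eb hj w k = eb hj w k := by
    apply absorb_left hA
    intro i
    by_cases hi : i = m
    · subst hi
      simp [t, hwl, hwm]
    · simp [t, hi]
  rw [← h1, mul_assoc, h2]

/-- The elements of `IG S` attached to the matrices of rank one. -/
def X (u : Fin 3 → P) (k : Fin 3) : IG S :=
  eb hj u (k + 1) * eb hj (Function.update u k 1) k

theorem X_eq (u : Fin 3 → P) {k l : Fin 3} (hlk : l ≠ k) (w : Fin 3 → P) (hwk : w k = 1)
    (hwl : w l = u l) : X hj u k = eb hj u l * eb hj w k := by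
  have h0 : k + 1 ≠ k := succ_ne k
  have h1 : X hj u k = eb hj u l * eb hj (Function.update u k 1) k := by
    by_cases hl : k + 1 = l
    · subst hl; rfl
    · apply lemB hj hl
      · simp [h0]
      · simp [hlk]
  rw [h1]
  apply lemA hj hlk
  simp [hlk, hwk, hwl]

theorem X_eb (u : Fin 3 → P) {k : Fin 3} (h : u k = 1) : X hj u k = eb hj u k := by
  obtain ⟨l, hl, -⟩ := exists_third k k
  rw [X_eq hj u hl u h rfl, eb_R]

theorem X_mul_eb (u w : Fin 3 → P) (k l : Fin 3) :
    X hj u k * eb hj w l = X hj (fun i => u i * (w k * (w l)⁻¹)) l := by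
  by_cases hlk : l = k
  · subst hlk
    simp only [mul_inv_cancel, mul_one]
    unfold X
    rw [mul_assoc, eb_L]
  · obtain ⟨m, hmk, hml⟩ := exists_third k l
    set a := w k * (w l)⁻¹ with ha
    let z : Fin 3 → P := Function.update u k 1
    have hzk : z k = 1 := by simp [z]
    have hzm : z m = u m := by simp [z, hmk]
    let w' : Fin 3 → P := fun i => if i = l then 1 else if i = k then a else u m * a
    have hw'l : w' l = 1 := by simp [w']
    have hw'k : w' k = a := by simp [w', Ne.symm hlk]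
    have hw'm : w' m = u m * a := by simp [w', hml, hmk]
    have e1 : eb hj z k * eb hj w l = eb hj z k * eb hj w' l := by
      apply lemA hj (Ne.symm hlk)
      rw [hw'k, hw'l, ← ha]; simp
    let t : M3 P := ⟨fun i => if i = m then u m else 1, fun i => if i = m then k else i⟩
    have ht : t * t = t := by
      ext i
      · by_cases hi : i = m
        · simp [t, hi, Ne.symm hmk]
        · simp [t, hi]
      · by_cases hi : i = m
        · simp [t, hi, Ne.symm hmk]
        · simp [t, hi]
    have hA := acts_self hj ht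
    have e2 : eb hj z m * bar (j t) hA.idem = eb hj z k := by
      apply mul_act hj hA
      · intro i
        by_cases hi : i = m
        · subst hi
          simp [t, hzk, hzm]
        · simp [t, hi]
      · ext i
        · simp [t, hzk, hzm]
        · simp [t]
    have e3 : bar (j t) hA.idem * eb hj w' l = eb hj w' l := by
      apply absorb_left hA
      intro i
      by_cases hi : i = m
      · subst hi
        simp [t, hw'k, hw'm]
      · simp [t, hi]
    rw [X_eq hj u hmk z hzk hzm, mul_assoc, e1, ← mul_assoc, ← e2, ← mul_assoc, eb_L, mul_assoc, e3]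
    rw [X_eq hj (fun i => u i * a) hml w' hw'l (by rw [hw'm])]
    congr 1
    apply eb_congr
    intro i
    simp [mul_assoc]

theorem X_mul_X (u v : Fin 3 → P) (k l : Fin 3) :
    X hj u k * X hj v l = X hj (fun i => u i * v k) l := by
  obtain ⟨m, hm, -⟩ := exists_third l l
  rw [X_eq hj v hm (Function.update v l 1) (by simp) (by simp [hm]), ← mul_assoc, X_mul_eb,
    X_mul_eb]
  congr 1
  funext i
  simp [hm, mul_assoc]

theorem X_mul_act {τ : S} {t : M3 P} (h : Acts j τ t) (u : Fin 3 → P) (k : Fin 3) :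
    X hj u k * bar τ h.idem = X hj (fun i => u i * t.lab k) (t.tgt k) := by
  have h1 : X hj u k = X hj u k * eb hj t.lab k := by
    rw [X_mul_eb]; simp
  have h2 : eb hj t.lab k * bar τ h.idem = eb hj t.lab (t.tgt k) := by
    apply mul_act hj h
    · intro i
      rw [M3.idem_lab h.idem', mul_one]
    · ext i
      · simp [M3.idem_lab h.idem']
      · simp
  rw [h1, mul_assoc, h2, X_mul_eb]
  congr 1
  funext i
  simp [M3.idem_lab h.idem']

theorem act_mul_X {τ : S} {t : M3 P} (h : Acts j τ t) (u : Fin 3 → P) (k : Fin 3) :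
    bar τ h.idem * X hj u k = X hj (fun i => t.lab i * u (t.tgt i)) k := by
  obtain ⟨l, hl, -⟩ := exists_third k k
  set m := t.tgt l with hm
  have hm1 : t.lab m = 1 := M3.idem_lab h.idem' l
  have hm2 : t.tgt m = m := M3.idem_tgt h.idem' l
  have h1 : bar τ h.idem * eb hj u m = eb hj (fun i => t.lab i * u (t.tgt i)) m := by
    apply act_mul hj h
    · ext i
      · simp [hm1]
      · simp [hm2]
    · ext i
      · simp [hm1, hm2, mul_assoc]
      · simp
  have h2 : X hj u k = eb hj u m * X hj u k := by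
    rw [X_eq hj u hl (Function.update u k 1) (by simp) (by simp [hl]), ← mul_assoc, eb_R]
  have h3 : eb hj (fun i => t.lab i * u (t.tgt i)) m =
      X hj (fun i => t.lab i * u (t.tgt i) * (u m)⁻¹) m := by
    rw [X_eb]
    · apply eb_congr
      intro i
      simp [hm1, hm2]
    · simp [hm1, hm2]
  rw [h2, ← mul_assoc, h1, h3, X_mul_X]
  congr 1
  funext i
  simp

end RankOne

/-! ### The semigroup -/

/-- The semigroup `M₃(P) ⊔ M₃(G) ⊔ M₃(Q) ⊔ {0}` attached to `G ← P → Q`. -/
inductive Sg {P G Q : Type u} [Group P] [Group G] [Group Q] (ι : P →* G) (φ : P →* Q) : Type u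
  | T (t : M3 P)
  | A (s : M3 G)
  | B (q : M3 Q)
  | Z

/-- The set acted upon. -/
inductive Om (G : Type u) : Type u
  | a (g : G) (k : Fin 3)
  | b (C : Set G) (l : Fin 3)
  | z

section Construction

variable {P G Q : Type u} [Group P] [Group G] [Group Q] {ι : P →* G} {φ : P →* Q}

namespace Sg

instance : Mul (Sg ι φ) := ⟨fun x y => match x, y with
  | T t, T t' => T (t * t')
  | T t, A s => A (t.map ι * s)
  | T t, B q => B (t.map φ * q)
  | A s, T t => A (s * t.map ι)
  | A s, A s' => A (s * s')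
  | A _, B _ => Z
  | B q, T t => B (q * t.map φ)
  | B _, A _ => Z
  | B q, B q' => B (q * q')
  | Z, _ => Z
  | T _, Z => Z
  | A _, Z => Z
  | B _, Z => Z⟩

theorem TT (t t' : M3 P) : (T t : Sg ι φ) * T t' = T (t * t') := rfl
theorem TA (t : M3 P) (s : M3 G) : (T t : Sg ι φ) * A s = A (t.map ι * s) := rfl
theorem TB (t : M3 P) (q : M3 Q) : (T t : Sg ι φ) * B q = B (t.map φ * q) := rfl
theorem TZ (t : M3 P) : (T t : Sg ι φ) * Z = Z := rfl
theorem AT (s : M3 G) (t : M3 P) : (A s : Sg ι φ) * T t = A (s * t.map ι) := rfl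
theorem AA (s s' : M3 G) : (A s : Sg ι φ) * A s' = A (s * s') := rfl
theorem AB (s : M3 G) (q : M3 Q) : (A s : Sg ι φ) * B q = Z := rfl
theorem AZ (s : M3 G) : (A s : Sg ι φ) * Z = Z := rfl
theorem BT (q : M3 Q) (t : M3 P) : (B q : Sg ι φ) * T t = B (q * t.map φ) := rfl
theorem BA (q : M3 Q) (s : M3 G) : (B q : Sg ι φ) * A s = Z := rfl
theorem BB (q q' : M3 Q) : (B q : Sg ι φ) * B q' = B (q * q') := rfl
theorem BZ (q : M3 Q) : (B q : Sg ι φ) * Z = Z := rfl
theorem Zm (x : Sg ι φ) : (Z : Sg ι φ) * x = Z := rfl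

instance : Semigroup (Sg ι φ) where
  mul_assoc x y z := by
    cases x <;> cases y <;> cases z <;>
      simp only [TT, TA, TB, TZ, AT, AA, AB, AZ, BT, BA, BB, BZ, Zm, mul_assoc, M3.map_mul]

end Sg

open Sg

theorem hA (s t : M3 G) : (A (s * t) : Sg ι φ) = A s * A t := rfl
theorem hB (s t : M3 Q) : (B (s * t) : Sg ι φ) = B s * B t := rfl

theorem T_idem {t : M3 P} (ht : t * t = t) : (T t : Sg ι φ) * T t = T t := by
  rw [TT, ht]

theorem actsA {t : M3 P} (ht : t * t = t) :
    Acts (S := Sg ι φ) A (T t) (t.map ι) where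
  idem := T_idem ht
  idem' := by rw [← M3.map_mul, ht]
  right _ := rfl
  left _ := rfl

theorem actsB {t : M3 P} (ht : t * t = t) :
    Acts (S := Sg ι φ) B (T t) (t.map φ) where
  idem := T_idem ht
  idem' := by rw [← M3.map_mul, ht]
  right _ := rfl
  left _ := rfl

/-- Passing an idempotent of `M₃(P)` from one factor to the other. -/
theorem contact {t : M3 P} (ht : t * t = t) (u : Fin 3 → G) (v : Fin 3 → Q) (k l : Fin 3) :
    X (hA (ι := ι) (φ := φ)) u k * X hB (fun i => φ (t.lab i) * v (t.tgt i)) l =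
      X hA (fun i => u i * ι (t.lab k)) (t.tgt k) * X hB v l := by
  have h1 := X_mul_act (hA (ι := ι) (φ := φ)) (actsA ht) u k
  have h2 := act_mul_X (hB (ι := ι) (φ := φ)) (actsB ht) v l
  simp only [M3.map_lab, M3.map_tgt] at h1 h2
  rw [← h1, ← h2, mul_assoc]

/-- The elementary idempotent with row `a` replaced by the entry `p` in column `b`. -/
def el (a b : Fin 3) (p : P) : M3 P :=
  ⟨fun i => if i = a then p else 1, fun i => if i = a then b else i⟩

theorem el_idem {a b : Fin 3} (h : b ≠ a) (p : P) : el a b p * el a b p = el a b p := by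
  ext i
  · by_cases hi : i = a
    · simp [el, hi, h]
    · simp [el, hi]
  · by_cases hi : i = a
    · simp [el, hi, h]
    · simp [el, hi]

/-- The element `y_h` of the `H`-class of `x`. -/
def Y (ι : P →* G) (φ : P →* Q) (h : Q) : IG (Sg ι φ) :=
  X hA (fun _ => 1) 0 * X hB (fun _ => h) 0

theorem contact_const (p : P) :
    X (hA (ι := ι) (φ := φ)) (fun _ => ι p) 0 * X hB (fun _ => 1) 0 = Y ι φ (φ p) := by
  have h1 := contact (ι := ι) (φ := φ) (el_idem (a := 1) (b := 0) (by decide) p)
    (fun _ => 1) (fun _ => 1) 1 0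
  have h2 := contact (ι := ι) (φ := φ) (el_idem (a := 0) (b := 1) (by decide) (1 : P))
    (fun _ => 1) (fun i => if i = 1 then φ p else 1) 0 0
  have h3 := contact (ι := ι) (φ := φ) (el_idem (a := 2) (b := 0) (by decide) (1 : P))
    (fun _ => 1) (fun i => if i = 2 then 1 else φ p) 0 0
  have e1 : (fun i => φ ((el (P := P) 1 0 p).lab i) * (fun _ => (1 : Q)) ((el 1 0 p).tgt i)) =
      fun i => if i = 1 then φ p else 1 := by
    funext i; fin_cases i <;> simp [el]
  have e2 : (fun i => φ ((el (P := P) 0 1 1).lab i) *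
      (fun i : Fin 3 => if i = 1 then φ p else 1) ((el (P := P) 0 1 1).tgt i)) =
      fun i => if i = 2 then 1 else φ p := by
    funext i; fin_cases i <;> simp [el]
  have e3 : (fun i => φ ((el (P := P) 2 0 1).lab i) *
      (fun i : Fin 3 => if i = 2 then 1 else φ p) ((el (P := P) 2 0 1).tgt i)) =
      fun _ => φ p := by
    funext i; fin_cases i <;> simp [el]
  rw [e1] at h1
  rw [e2] at h2
  rw [e3] at h3
  simp [el] at h1 h2 h3
  unfold Y
  rw [h3, h2, ← h1]

/-! ### The action -/

variable (ι φ) in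
/-- Right translate of a subset of `G` by an element of `Q`. -/
def sh (C : Set G) (h : Q) : Set G := {x | ∃ c ∈ C, ∃ p : P, φ p = h ∧ x = c * ι p}

theorem sh_sh (hφ : Function.Surjective φ) (C : Set G) (h h' : Q) :
    sh ι φ (sh ι φ C h) h' = sh ι φ C (h * h') := by
  ext x
  constructor
  · rintro ⟨_, ⟨c, hc, p, hp, rfl⟩, p', hp', rfl⟩
    exact ⟨c, hc, p * p', by simp [hp, hp'], by simp [mul_assoc]⟩
  · rintro ⟨c, hc, p, hp, rfl⟩
    obtain ⟨p', hp'⟩ := hφ h'
    refine ⟨c * ι (p * p'⁻¹), ⟨c, hc, p * p'⁻¹, by simp [hp, hp'], rfl⟩, p', hp', by simp [mul_assoc]⟩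

theorem sh_single (g : G) (p : P) (h : Q) :
    sh ι φ {g * ι p} h = sh ι φ {g} (φ p * h) := by
  ext x
  constructor
  · rintro ⟨_, rfl, p', hp', rfl⟩
    exact ⟨g, rfl, p * p', by simp [hp'], by simp [mul_assoc]⟩
  · rintro ⟨c, hc, p', hp', rfl⟩
    rw [Set.mem_singleton_iff] at hc
    exact ⟨g * ι p, rfl, p⁻¹ * p', by simp [hp'], by simp [hc, mul_assoc]⟩

theorem sh_inj (hι : Function.Injective ι) (hφ : Function.Surjective φ) {h h' : Q}
    (he : sh ι φ {1} h = sh ι φ {1} h') : h = h' := by
  obtain ⟨p, hp⟩ := hφ h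
  have : ι p ∈ sh ι φ {1} h := ⟨1, rfl, p, hp, by simp⟩
  rw [he] at this
  obtain ⟨_, rfl, p', hp', h2⟩ := this
  rw [one_mul] at h2
  rw [← hp, ← hp', hι h2]

/-- The action of the elements of the semigroup. -/
def act : Om G → Sg ι φ → Om G
  | .a g k, T t => .a (g * ι (t.lab k)) (t.tgt k)
  | .a g k, A s => .a (g * s.lab k) (s.tgt k)
  | .a g k, B q => .b (sh ι φ {g} (q.lab k)) (q.tgt k)
  | .b C l, T t => .b (sh ι φ C (φ (t.lab l))) (t.tgt l)
  | .b C l, B q => .b (sh ι φ C (q.lab l)) (q.tgt l)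
  | .b _ _, A _ => .z
  | .z, T _ => .z
  | .z, A _ => .z
  | .z, B _ => .z
  | _, Z => .z

theorem act_act (hφ : Function.Surjective φ) (ω : Om G) (x y : Sg ι φ)
    (h : ¬ ∃ s q, x = A s ∧ y = B q) : act (act ω x) y = act ω (x * y) := by
  cases ω <;> cases x <;> cases y <;>
    simp_all [act, mul_assoc, sh_sh, sh_single]

theorem basic_not {x y : Idem (Sg ι φ)} (h : Basic x y) : ¬ ∃ s q, x.1 = A s ∧ y.1 = B q := by
  rintro ⟨s, q, hx, hy⟩
  obtain ⟨z, h1, h2⟩ := h
  rw [hx, hy] at h1 h2
  simp only [AB, BA, Set.mem_insert_iff, Set.mem_singleton_iff, or_self] at h1 h2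
  subst h2
  rcases h1 with h1 | h1 <;> cases h1

variable (ι) in
/-- The action on the generators. -/
def gen (e : Idem (Sg ι φ)) : (Function.End (Om G))ᵐᵒᵖ := MulOpposite.op (fun ω => act ω e.1)

theorem gen_mul (hφ : Function.Surjective φ) (a b g : Idem (Sg ι φ)) (h : Basic a b)
    (hg : g.1 = a.1 * b.1) : gen ι a * gen ι b = gen ι g := by
  unfold gen
  rw [← MulOpposite.op_mul]
  congr 1
  funext ω
  change act (act ω a.1) b.1 = act ω g.1
  rw [hg]
  exact act_act hφ ω _ _ (basic_not h)

/-- The action of `IG S`. -/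
def ac (hφ : Function.Surjective φ) (ω : Om G) (x : IG (Sg ι φ)) : Om G :=
  (lift (gen ι) (gen_mul hφ) x).unop ω

theorem ac_mul (hφ : Function.Surjective φ) (ω : Om G) (x y : IG (Sg ι φ)) :
    ac hφ ω (x * y) = ac hφ (ac hφ ω x) y := by
  unfold ac
  rw [lift_mul]
  rfl

theorem ac_bar (hφ : Function.Surjective φ) (ω : Om G) (e : Sg ι φ) (he : e * e = e) :
    ac hφ ω (bar e he) = act ω e := rfl

theorem ac_a_XA (hφ : Function.Surjective φ) (g : G) (k : Fin 3) (u : Fin 3 → G) (l : Fin 3) :
    ac hφ (.a g k) (X (hA (ι := ι) (φ := φ)) u l) = .a (g * u k) l := by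
  unfold X eb
  rw [ac_mul, ac_bar, ac_bar]
  simp [act, mul_assoc]

theorem ac_b_XA (hφ : Function.Surjective φ) (C : Set G) (k : Fin 3) (u : Fin 3 → G) (l : Fin 3) :
    ac hφ (.b C k) (X (hA (ι := ι) (φ := φ)) u l) = .z := by
  unfold X eb
  rw [ac_mul, ac_bar, ac_bar]
  simp [act]

theorem ac_a_XB (hφ : Function.Surjective φ) (g : G) (k : Fin 3) (u : Fin 3 → Q) (l : Fin 3) :
    ac hφ (.a g k) (X (hB (ι := ι) (φ := φ)) u l) = .b (sh ι φ {g} (u k)) l := by
  unfold X eb
  rw [ac_mul, ac_bar, ac_bar]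
  simp [act, mul_assoc, sh_sh hφ]

theorem ac_z (hφ : Function.Surjective φ) (x : IG (Sg ι φ)) : ac hφ .z x = .z := by
  obtain ⟨w, rfl⟩ := val_surj x
  induction w using FreeSemigroup.recOnMul with
  | ih1 e =>
    change act Om.z e.1 = _
    cases e.1 <;> rfl
  | ih2 e y h1 h2 => rw [val_mul, ac_mul, h1, h2]

theorem recw {motive : IG (Sg ι φ) → Prop} (h1 : ∀ e : Idem (Sg ι φ), motive (bar e.1 e.2))
    (h2 : ∀ x y, motive x → motive y → motive (x * y)) (x : IG (Sg ι φ)) : motive x := by
  obtain ⟨w, rfl⟩ := val_surj x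
  induction w using FreeSemigroup.recOnMul with
  | ih1 e => exact h1 e
  | ih2 e y i1 i2 => rw [val_mul]; exact h2 _ _ i1 i2

/-- Being of the first type. -/
def IsA (ω : Om G) : Prop := ∃ g k, ω = .a g k

theorem notA (hφ : Function.Surjective φ) (x : IG (Sg ι φ)) :
    ∀ ω : Om G, ¬ IsA ω → ¬ IsA (ac hφ ω x) := by
  refine recw (motive := fun x => ∀ ω : Om G, ¬ IsA ω → ¬ IsA (ac hφ ω x)) ?_ ?_ x
  · rintro ⟨e, he⟩ ω hω
    rw [ac_bar]
    rintro ⟨g, k, h⟩
    cases ω with
    | a g k => exact hω ⟨g, k, rfl⟩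
    | b C l => cases e <;> simp [act] at h
    | z => cases e <;> simp [act] at h
  · intro x y hx hy ω hω
    rw [ac_mul]
    exact hy _ (hx _ hω)

theorem trackA (hφ : Function.Surjective φ) (x : IG (Sg ι φ)) :
    ∀ (u : Fin 3 → G) (k : Fin 3),
      (∃ c k', X hA u k * x = X (hA (ι := ι) (φ := φ)) (fun i => u i * c) k') ∨
      (∀ ω : Om G, ¬ IsA (ac hφ ω x)) := by
  refine recw (motive := fun x => ∀ (u : Fin 3 → G) (k : Fin 3),
      (∃ c k', X hA u k * x = X (hA (ι := ι) (φ := φ)) (fun i => u i * c) k') ∨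
      (∀ ω : Om G, ¬ IsA (ac hφ ω x))) ?_ ?_ x
  · rintro ⟨e, he⟩ u k
    cases e with
    | T t =>
      left
      have ht : t * t = t := by
        have := he
        rw [TT] at this
        exact Sg.T.inj this
      exact ⟨ι (t.lab k), t.tgt k, X_mul_act hA (actsA ht) u k⟩
    | A s =>
      left
      have hs : s * s = s := by
        have := he
        rw [AA] at this
        exact Sg.A.inj this
      exact ⟨s.lab k, s.tgt k, X_mul_act hA (acts_self hA hs) u k⟩
    | B q =>
      right
      rintro ω ⟨g, k, h⟩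
      rw [ac_bar] at h
      cases ω <;> simp [act] at h
    | Z =>
      right
      rintro ω ⟨g, k, h⟩
      rw [ac_bar] at h
      cases ω <;> simp [act] at h
  · intro x y hx hy u k
    rcases hx u k with ⟨c, k', h⟩ | h
    · rcases hy (fun i => u i * c) k' with ⟨c', k'', h'⟩ | h'
      · left
        refine ⟨c * c', k'', ?_⟩
        rw [← mul_assoc, h, h']
        simp only [mul_assoc]
      · right
        intro ω
        rw [ac_mul]
        exact h' _
    · right
      intro ω
      rw [ac_mul]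
      exact notA hφ y _ (h ω)

theorem trackB (hφ : Function.Surjective φ) (x : IG (Sg ι φ)) :
    ∀ (v : Fin 3 → Q) (k : Fin 3),
      (∃ c k', X hB v k * x = X (hB (ι := ι) (φ := φ)) (fun i => v i * c) k') ∨
      (∀ ω : Om G, ¬ IsA ω → ac hφ ω x = .z) := by
  refine recw (motive := fun x => ∀ (v : Fin 3 → Q) (k : Fin 3),
      (∃ c k', X hB v k * x = X (hB (ι := ι) (φ := φ)) (fun i => v i * c) k') ∨
      (∀ ω : Om G, ¬ IsA ω → ac hφ ω x = .z)) ?_ ?_ x
  · rintro ⟨e, he⟩ v k
    cases e with
    | T t =>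
      left
      have ht : t * t = t := by
        have := he
        rw [TT] at this
        exact Sg.T.inj this
      exact ⟨φ (t.lab k), t.tgt k, X_mul_act hB (actsB ht) v k⟩
    | B s =>
      left
      have hs : s * s = s := by
        have := he
        rw [BB] at this
        exact Sg.B.inj this
      exact ⟨s.lab k, s.tgt k, X_mul_act hB (acts_self hB hs) v k⟩
    | A q =>
      right
      intro ω hω
      rw [ac_bar]
      cases ω with
      | a g k => exact absurd ⟨g, k, rfl⟩ hω
      | b C l => rfl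
      | z => rfl
    | Z =>
      right
      intro ω hω
      rw [ac_bar]
      cases ω <;> rfl
  · intro x y hx hy v k
    rcases hx v k with ⟨c, k', h⟩ | h
    · rcases hy (fun i => v i * c) k' with ⟨c', k'', h'⟩ | h'
      · left
        refine ⟨c * c', k'', ?_⟩
        rw [← mul_assoc, h, h']
        simp only [mul_assoc]
      · right
        intro ω hω
        rw [ac_mul]
        exact h' _ (notA hφ x _ hω)
    · right
      intro ω hω
      rw [ac_mul, h ω hω, ac_z]

/-! ### Green's relations -/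

theorem greenR_cases {T : Type u} [Semigroup T] {a b : T} (h : GreenR a b) :
    (a = b ∨ ∃ s, a = b * s) ∧ (b = a ∨ ∃ s, b = a * s) := by
  obtain ⟨⟨s, hs⟩, t, ht⟩ := h
  constructor
  · cases s with
    | one => left; rw [mul_one] at hs; exact WithOne.coe_inj.1 hs
    | coe s => right; exact ⟨s, WithOne.coe_inj.1 (by rw [hs, WithOne.coe_mul])⟩
  · cases t with
    | one => left; rw [mul_one] at ht; exact WithOne.coe_inj.1 ht
    | coe s => right; exact ⟨s, WithOne.coe_inj.1 (by rw [ht, WithOne.coe_mul])⟩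

theorem greenL_cases {T : Type u} [Semigroup T] {a b : T} (h : GreenL a b) :
    (a = b ∨ ∃ s, a = s * b) := by
  obtain ⟨⟨s, hs⟩, -⟩ := h
  cases s with
  | one => left; rw [one_mul] at hs; exact WithOne.coe_inj.1 hs
  | coe s => right; exact ⟨s, WithOne.coe_inj.1 (by rw [hs, WithOne.coe_mul])⟩

theorem greenL_fix {T : Type u} [Semigroup T] {a b e : T} (h : GreenL a b) (hb : b * e = b) :
    a * e = a := by
  rcases greenL_cases h with rfl | ⟨s, rfl⟩
  · exact hb
  · rw [mul_assoc, hb]

theorem greenR_of {T : Type u} [Semigroup T] {a b s t : T} (h1 : a = b * s) (h2 : b = a * t) :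
    GreenR a b := ⟨⟨s, by rw [h1, WithOne.coe_mul]⟩, ⟨t, by
      rw [← WithOne.coe_mul, ← h2]⟩⟩

theorem greenL_of {T : Type u} [Semigroup T] {a b s t : T} (h1 : a = s * b) (h2 : b = t * a) :
    GreenL a b := ⟨⟨s, by rw [h1, WithOne.coe_mul]⟩, ⟨t, by
      rw [← WithOne.coe_mul, ← h2]⟩⟩

theorem greenR_refl {T : Type u} [Semigroup T] (a : T) : GreenR a a :=
  ⟨⟨1, (mul_one _).symm⟩, ⟨1, (mul_one _).symm⟩⟩

theorem greenL_refl {T : Type u} [Semigroup T] (a : T) : GreenL a a :=
  ⟨⟨1, (one_mul _).symm⟩, ⟨1, (one_mul _).symm⟩⟩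

/-! ### The first class -/

variable (ι φ) in
/-- The elements of the maximal subgroup of the first class. -/
def XA (g : G) : IG (Sg ι φ) := X hA (fun _ => g) 0

theorem XA_mul (g h : G) : XA ι φ g * XA ι φ h = XA ι φ (g * h) := X_mul_X _ _ _ _ _

variable (ι φ) in
/-- The elements of the maximal subgroup of the second class. -/
def XB (g : Q) : IG (Sg ι φ) := X hB (fun _ => g) 0

theorem XB_mul (g h : Q) : XB ι φ g * XB ι φ h = XB ι φ (g * h) := X_mul_X _ _ _ _ _

theorem XA_inj (hφ : Function.Surjective φ) : Function.Injective (XA ι φ) := by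
  intro g h hgh
  have := congrArg (ac hφ (.a 1 0)) hgh
  unfold XA at this
  rw [ac_a_XA, ac_a_XA] at this
  simpa using this

theorem XA_class (hφ : Function.Surjective φ) : Set.range (XA ι φ) = HClass (XA ι φ 1) := by
  ext y
  constructor
  · rintro ⟨g, rfl⟩
    refine ⟨greenR_of (s := XA ι φ g) (t := XA ι φ g⁻¹) ?_ ?_,
      greenL_of (s := XA ι φ g) (t := XA ι φ g⁻¹) ?_ ?_⟩ <;> rw [XA_mul] <;> simp
  · rintro ⟨hR, hL⟩
    have h1 : y * XA ι φ 1 = y := greenL_fix hL (by rw [XA_mul, one_mul])
    obtain ⟨h2, h3⟩ := greenR_cases hR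
    rcases h2 with rfl | ⟨s, rfl⟩
    · exact ⟨1, rfl⟩
    · rcases trackA hφ s (fun _ => 1) 0 with ⟨c, k', h⟩ | h
      · have h4 : XA ι φ 1 * s = X hA (fun _ => c) k' := by
          unfold XA
          rw [h]; simp
        refine ⟨c, ?_⟩
        rw [← h1, h4]
        unfold XA
        rw [X_mul_X]; simp
      · exfalso
        have h5 : ∀ ω, ¬ IsA (ac hφ ω (XA ι φ 1 * s)) := by
          intro ω
          rw [ac_mul]
          exact h _
        have h6 : ¬ IsA (ac hφ (.a 1 0) (XA ι φ 1)) := by
          rcases h3 with h3 | ⟨t, h3⟩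
          · rw [h3]; exact h5 _
          · rw [h3, ac_mul]
            exact notA hφ t _ (h5 _)
        apply h6
        unfold XA
        rw [ac_a_XA]
        exact ⟨_, _, rfl⟩

/-! ### The class of `x` -/

theorem Y_eq (h : Q) : Y ι φ h = XA ι φ 1 * XB ι φ h := rfl

theorem contact' (p : P) : XA ι φ (ι p) * XB ι φ 1 = Y ι φ (φ p) := contact_const p

theorem Y_mul (h q : Q) : Y ι φ h * XB ι φ q = Y ι φ (h * q) := by
  rw [Y_eq, Y_eq, mul_assoc, XB_mul]

theorem Y_act (hφ : Function.Surjective φ) (h : Q) :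
    ac hφ (.a 1 0) (Y ι φ h) = .b (sh ι φ {1} h) 0 := by
  unfold Y
  rw [ac_mul, ac_a_XA, ac_a_XB, mul_one]

theorem Y_inj (hι : Function.Injective ι) (hφ : Function.Surjective φ) :
    Function.Injective (Y ι φ) := by
  intro g h hgh
  have := congrArg (ac hφ (.a 1 0)) hgh
  rw [Y_act, Y_act] at this
  have h2 := (Om.b.inj this).1
  exact sh_inj hι hφ h2

theorem Y_left (p : P) (h : Q) : XA ι φ (ι p) * Y ι φ h = Y ι φ (φ p * h) := by
  rw [Y_eq, ← mul_assoc, XA_mul, mul_one]
  have : XB ι φ h = XB ι φ 1 * XB ι φ h := by rw [XB_mul, one_mul]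
  rw [this, ← mul_assoc, contact', Y_mul]

theorem Y_class (hφ : Function.Surjective φ) : HClass (Y ι φ 1) = Set.range (Y ι φ) := by
  ext y
  constructor
  · rintro ⟨hR, hL⟩
    have h1 : y * XB ι φ 1 = y := greenL_fix hL (by rw [Y_mul, one_mul])
    obtain ⟨h2, h3⟩ := greenR_cases hR
    rcases h2 with rfl | ⟨s, rfl⟩
    · exact ⟨1, rfl⟩
    · rcases trackB hφ s (fun _ => 1) 0 with ⟨c, k', h⟩ | h
      · have h4 : Y ι φ 1 * s = XA ι φ 1 * X hB (fun _ => c) k' := by
          rw [Y_eq, mul_assoc]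
          congr 1
          unfold XB
          rw [h]; simp
        refine ⟨c, ?_⟩
        rw [← h1, h4, mul_assoc, Y_eq]
        congr 1
        unfold XB
        rw [X_mul_X]; simp
      · exfalso
        have h5 : ac hφ (.a 1 0) (Y ι φ 1 * s) = .z := by
          rw [ac_mul, Y_act]
          apply h
          rintro ⟨_, _, h⟩
          cases h
        have h6 : ac hφ (.a 1 0) (Y ι φ 1) = .z := by
          rcases h3 with h3 | ⟨t, h3⟩
          · rw [h3]; exact h5
          · rw [h3, ac_mul, h5, ac_z]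
        rw [Y_act] at h6
        cases h6
  · rintro ⟨h, rfl⟩
    obtain ⟨p, rfl⟩ := hφ h
    refine ⟨greenR_of (s := XB ι φ (φ p)) (t := XB ι φ (φ p)⁻¹) ?_ ?_,
      greenL_of (s := XA ι φ (ι p)) (t := XA ι φ (ι p⁻¹)) ?_ ?_⟩
    · rw [Y_mul, one_mul]
    · rw [Y_mul, mul_inv_cancel]
    · rw [Y_left, mul_one]
    · rw [Y_left, ← map_mul, inv_mul_cancel, map_one]

theorem Y_not_regular (hφ : Function.Surjective φ) (h : Q) : ¬ Regular (Y ι φ h) := by
  rintro ⟨b, hb⟩
  have h1 := congrArg (ac hφ (.a 1 0)) hb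
  rw [ac_mul, ac_mul, Y_act] at h1
  have h2 : ¬ IsA (ac hφ (.b (sh ι φ {1} h) 0) b) := by
    apply notA
    rintro ⟨_, _, h⟩
    cases h
  have h3 : ∀ ω : Om G, ¬ IsA ω → ac hφ ω (Y ι φ h) = .z := by
    intro ω hω
    rw [Y_eq, ac_mul]
    cases ω with
    | a g k => exact absurd ⟨g, k, rfl⟩ hω
    | b C l =>
      unfold XA
      rw [ac_b_XA, ac_z]
    | z => rw [ac_z, ac_z]
  rw [h3 _ h2] at h1
  cases h1

theorem mem_range (hφ : Function.Surjective φ) (z : HClass (Y ι φ 1)) :
    z.1 ∈ Set.range (Y ι φ) := by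
  rw [← Y_class hφ]
  exact z.2

theorem rho_mem (hφ : Function.Surjective φ) (q : Q) (z : HClass (Y ι φ 1)) :
    z.1 * XB ι φ q ∈ HClass (Y ι φ 1) := by
  obtain ⟨h, hh⟩ := mem_range hφ z
  have h1 : Y ι φ (h * q) ∈ Set.range (Y ι φ) := ⟨_, rfl⟩
  rw [← Y_class hφ, ← Y_mul, hh] at h1
  exact h1

/-- The action of `Q` on the `H`-class. -/
def rho (hφ : Function.Surjective φ) (q : Q) : schutz (HClass (Y ι φ 1)) :=
  ⟨fun z => ⟨z.1 * XB ι φ q⁻¹, rho_mem hφ _ z⟩, ⟨(XB ι φ q⁻¹ : IG (Sg ι φ)), fun h => by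
      rw [← WithOne.coe_mul]⟩⟩

theorem rho_mul (hφ : Function.Surjective φ) (q q' : Q) :
    rho (ι := ι) hφ (q * q') = rho hφ q * rho hφ q' := by
  apply Subtype.ext
  funext z
  apply Subtype.ext
  change z.1 * XB ι φ (q * q')⁻¹ = z.1 * XB ι φ q'⁻¹ * XB ι φ q⁻¹
  rw [mul_assoc, XB_mul, mul_inv_rev]

/-- The Schutzenberger group. -/
theorem schutz_iso (hι : Function.Injective ι) (hφ : Function.Surjective φ) :
    Nonempty (Q ≃* schutz (HClass (Y ι φ 1))) := by
  let f : Q →ₙ* schutz (HClass (Y ι φ 1)) := ⟨rho hφ, rho_mul hφ⟩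
  let x0 : HClass (Y ι φ 1) := ⟨Y ι φ 1, greenR_refl _, greenL_refl _⟩
  refine ⟨MulEquiv.ofBijective f ⟨?_, ?_⟩⟩
  · intro q q' h
    have h1 : Y ι φ 1 * XB ι φ q⁻¹ = Y ι φ 1 * XB ι φ q'⁻¹ :=
      congrArg (fun g : schutz (HClass (Y ι φ 1)) => ((g.1 x0 : HClass (Y ι φ 1)) : IG (Sg ι φ))) h
    rw [Y_mul, Y_mul, one_mul, one_mul] at h1
    exact inv_injective (Y_inj hι hφ h1)
  · rintro ⟨g, s, hs⟩
    obtain ⟨c, hc⟩ := mem_range hφ (g x0)
    refine ⟨c⁻¹, ?_⟩
    apply Subtype.ext
    funext z
    apply Subtype.ext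
    change z.1 * XB ι φ c⁻¹⁻¹ = (g z).1
    rw [inv_inv]
    obtain ⟨h, hh⟩ := mem_range hφ z
    obtain ⟨p, rfl⟩ := hφ h
    have h1 : z.1 = XA ι φ (ι p) * Y ι φ 1 := by rw [← hh, Y_left, mul_one]
    apply WithOne.coe_inj.1
    have h2 : (((g x0) : IG (Sg ι φ)) : WithOne (IG (Sg ι φ))) = (Y ι φ 1 : IG (Sg ι φ)) * s :=
      hs x0
    rw [hs z, h1]
    have h3 : ((XA ι φ (ι p) * Y ι φ 1 : IG (Sg ι φ)) : WithOne (IG (Sg ι φ))) * s =
        (XA ι φ (ι p) : IG (Sg ι φ)) * ((g x0 : IG (Sg ι φ)) : WithOne (IG (Sg ι φ))) := by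
      rw [h2, ← mul_assoc, ← WithOne.coe_mul]
    rw [h3, ← hc, ← WithOne.coe_mul, WithOne.coe_inj, mul_assoc, Y_mul, one_mul]

theorem eA_idem : (A (M3.e (fun _ => (1 : G)) 0) : Sg ι φ) * A (M3.e (fun _ => (1 : G)) 0) =
    A (M3.e (fun _ => (1 : G)) 0) := by
  rw [AA, M3.e_idem]

theorem eB_idem : (B (M3.e (fun _ => (1 : Q)) 0) : Sg ι φ) * B (M3.e (fun _ => (1 : Q)) 0) =
    B (M3.e (fun _ => (1 : Q)) 0) := by
  rw [BB, M3.e_idem]

variable (ι φ) in
/-- The first letter. -/
def wA : FreeSemigroup (Idem (Sg ι φ)) := FreeSemigroup.of ⟨_, eA_idem⟩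

variable (ι φ) in
/-- The second letter. -/
def wB : FreeSemigroup (Idem (Sg ι φ)) := FreeSemigroup.of ⟨_, eB_idem⟩

theorem val_wA : val (wA ι φ) = XA ι φ 1 := by
  unfold XA
  rw [X_eb _ _ rfl]
  rfl

theorem val_wB : val (wB ι φ) = XB ι φ 1 := by
  unfold XB
  rw [X_eb _ _ rfl]
  rfl

theorem val_wAB : val (wA ι φ * wB ι φ) = Y ι φ 1 := by
  rw [val_mul, val_wA, val_wB, Y_eq]

theorem fact (hφ : Function.Surjective φ) :
    IsMinimalRFact (Y ι φ 1) (wA ι φ) [wB ι φ] where
  val_eq := val_wAB
  regular := by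
    intro v hv
    simp only [List.mem_cons, List.not_mem_nil, or_false] at hv
    rcases hv with rfl | rfl
    · rw [val_wA]
      exact ⟨XA ι φ 1, by rw [XA_mul, XA_mul, one_mul, one_mul]⟩
    · rw [val_wB]
      exact ⟨XB ι φ 1, by rw [XB_mul, XB_mul, one_mul, one_mul]⟩
  minimal := by
    intro pre suf l v h hr
    rcases l with _ | ⟨a, l⟩
    · rfl
    · exfalso
      have hlen := congrArg List.length h
      simp at hlen
      have h1 : pre = [] := List.length_eq_zero_iff.1 (by omega)
      have h2 : suf = [] := List.length_eq_zero_iff.1 (by omega)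
      have h3 : l = [] := List.length_eq_zero_iff.1 (by omega)
      subst h1 h2 h3
      simp at h
      obtain ⟨rfl, rfl⟩ := h
      have hr' : Regular (val (wA ι φ * wB ι φ)) := hr
      rw [val_wAB] at hr'
      exact Y_not_regular hφ 1 hr'

instance [Finite P] : Finite (M3 P) := by
  have : Function.Injective (fun s : M3 P => (s.lab, s.tgt)) := by
    intro s t h
    simp only [Prod.mk.injEq] at h
    exact M3.ext h.1 h.2
  exact Finite.of_injective _ this

instance [Finite P] [Finite G] [Finite Q] : Finite (Sg ι φ) := by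
  let f : M3 P ⊕ M3 G ⊕ M3 Q ⊕ Unit → Sg ι φ := fun x => match x with
    | .inl t => T t
    | .inr (.inl s) => A s
    | .inr (.inr (.inl q)) => B q
    | .inr (.inr (.inr _)) => Z
  have : Function.Surjective f := by
    intro x
    cases x with
    | T t => exact ⟨.inl t, rfl⟩
    | A s => exact ⟨.inr (.inl s), rfl⟩
    | B q => exact ⟨.inr (.inr (.inl q)), rfl⟩
    | Z => exact ⟨.inr (.inr (.inr ())), rfl⟩
  exact Finite.of_surjective _ this

end Construction

/-- For every finite group `G` and all `L ⊴ K ≤ G` there are a finite semigroup `S` and an element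
`x` of the free idempotent generated semigroup over the biordered set of `S` such that the first
regular `D`-class of the fingerprint of `x` has maximal subgroup `G`, and the Schutzenberger group
of the `H`-class of `x` is `K ⧸ L`. -/
theorem result (G : Type u) [Group G] [Finite G] (K : Subgroup G) (L : Subgroup K) [L.Normal] :
    ∃ (S : Type u) (_ : Semigroup S) (_ : Finite S) (x : IG S) (w : FreeSemigroup (Idem S))
      (ws : List (FreeSemigroup (Idem S))),
      IsMinimalRFact x w ws ∧ MaxSubgroupIso G (val w) ∧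
        Nonempty ((K ⧸ L) ≃* schutz (HClass x)) := by
  have hφ : Function.Surjective (QuotientGroup.mk' L) := QuotientGroup.mk'_surjective L
  have hM : MaxSubgroupIso G (XA K.subtype (QuotientGroup.mk' L) 1) :=
    ⟨XA K.subtype (QuotientGroup.mk' L) 1, by rw [XA_mul, one_mul],
      ⟨_, greenR_refl _, greenL_refl _⟩, XA K.subtype (QuotientGroup.mk' L), XA_inj hφ,
      fun a b => (XA_mul a b).symm, XA_class hφ⟩
  refine ⟨Sg K.subtype (QuotientGroup.mk' L), inferInstance, inferInstance,
    Y K.subtype (QuotientGroup.mk' L) 1, wA K.subtype (QuotientGroup.mk' L),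
    [wB K.subtype (QuotientGroup.mk' L)], fact hφ, ?_, schutz_iso K.subtype_injective hφ⟩
  rw [val_wA]
  exact hM

end Pool.Agent.Results.MP_316c67_al.SchutzenbergerDivisors
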